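import Pool.Agent.Lib_helper96.RP.Defs
import Pool.Agent.Lib_helper94.QS.Curv

set_option autoImplicit false

namespace Pool.Agent.Lib_helper96.RP

open Real MeasureTheory intervalIntegral Set Filter Topology
open Pool.Agent.Lib_helper94.QS

noncomputable section

abbrev E4 := EuclideanSpace ℝ (Fin 4)

/-- The lapse. -/
def lps (b : E4 → ℝ) (y : Fin 3 → ℝ) : ℝ := cos (y 1) * b (point (y 0) (y 1) (y 2))

/-- The first and second partial derivatives. -/
def p1 (N : (Fin 3 → ℝ) → ℝ) (m : Fin 3) (y : Fin 3 → ℝ) : ℝ := fderiv ℝ N y (Pi.single m 1)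

def p2 (N : (Fin 3 → ℝ) → ℝ) (i m : Fin 3) (y : Fin 3 → ℝ) : ℝ := p1 (p1 N i) m y

theorem contDiff_point : ContDiff ℝ 2 fun y : Fin 3 → ℝ => point (y 0) (y 1) (y 2) := by
  rw [contDiff_euclidean]
  intro i
  fin_cases i <;> simp [point] <;> fun_prop

theorem contDiff_lps {b : E4 → ℝ} (hb : ContDiff ℝ 2 b) : ContDiff ℝ 2 (lps b) := by
  unfold lps
  have h := hb.comp contDiff_point
  have h1 : ContDiff ℝ 2 fun y : Fin 3 → ℝ => cos (y 1) := by fun_prop
  exact h1.mul h

theorem hasDerivAt_p1 {N : (Fin 3 → ℝ) → ℝ} (hN : Differentiable ℝ N) (m : Fin 3) (y : Fin 3 → ℝ) :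
    HasDerivAt (fun t => N (Function.update y m t)) (p1 N m y) (y m) := by
  have h1 : HasDerivAt (fun t => Function.update y m t) (Pi.single m (1 : ℝ)) (y m) :=
    hasDerivAt_update y m (y m)
  have h2 : HasFDerivAt N (fderiv ℝ N y) (Function.update y m (y m)) := by
    rw [Function.update_eq_self]
    exact (hN y).hasFDerivAt
  exact h2.comp_hasDerivAt (y m) h1

theorem contDiff_p1 {N : (Fin 3 → ℝ) → ℝ} (hN : ContDiff ℝ 2 N) (m : Fin 3) :
    ContDiff ℝ 1 (p1 N m) := by
  have h : ContDiff ℝ 1 (fderiv ℝ N) := hN.fderiv_right (by norm_num)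
  exact h.clm_apply contDiff_const

theorem continuous_p2 {N : (Fin 3 → ℝ) → ℝ} (hN : ContDiff ℝ 2 N) (i m : Fin 3) :
    Continuous (p2 N i m) := by
  have h : Continuous (fderiv ℝ (p1 N i)) := (contDiff_p1 hN i).continuous_fderiv (by norm_num)
  exact h.clm_apply continuous_const

theorem p2_sym {N : (Fin 3 → ℝ) → ℝ} (hN : ContDiff ℝ 2 N) (i m : Fin 3) (y : Fin 3 → ℝ) :
    p2 N i m y = p2 N m i y := by
  have h : ContDiff ℝ 1 (fderiv ℝ N) := hN.fderiv_right (by norm_num)
  have hd : DifferentiableAt ℝ (fderiv ℝ N) y := h.differentiable (by norm_num) y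
  have key : ∀ i m : Fin 3, p2 N i m y = fderiv ℝ (fderiv ℝ N) y (Pi.single m 1) (Pi.single i 1) := by
    intro i m
    unfold p2
    rw [p1]
    have : (fun z => fderiv ℝ N z (Pi.single i (1 : ℝ))) = p1 N i := rfl
    rw [← this, fderiv_clm_apply hd (differentiableAt_const _)]
    simp
  rw [key, key]
  have hs : IsSymmSndFDerivAt ℝ N y := hN.contDiffAt.isSymmSndFDerivAt (by simp)
  exact hs _ _

theorem dat {b : E4 → ℝ} (hb : ContDiff ℝ 2 b) :
    Data (lps b) (p1 (lps b)) (p2 (lps b)) (fun _ => 1) (fun _ => 0) (fun _ => 0) where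
  d1 m y := hasDerivAt_p1 ((contDiff_lps hb).differentiable (by norm_num)) m y
  d2 i m y := hasDerivAt_p1 ((contDiff_p1 (contDiff_lps hb) i).differentiable (by norm_num)) m y
  sym := p2_sym (contDiff_lps hb)
  df r := hasDerivAt_const _ _
  df1 r := hasDerivAt_const _ _

theorem metric_eq (b : E4 → ℝ) : metric b = met (lps b) (fun _ => 1) := by
  funext y
  simp [metric, met, lps]

end

end Pool.Agent.Lib_helper96.RP
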