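import Pool.Agent.Lib_helper94.QS.Defs

/-!
# Metrics on the 3-sphere whose pages are totally geodesic round hemispheres
-/

set_option autoImplicit false

namespace Pool.Agent.Lib_helper96.RP

open Real

noncomputable section

/-- The point `(sin θ e^{iφ}, cos θ e^{iα})` of the 3-sphere in `ℝ⁴ = ℂ²`. -/
def point (α θ φ : ℝ) : EuclideanSpace ℝ (Fin 4) :=
  !₂[sin θ * cos φ, sin θ * sin φ, cos θ * cos α, cos θ * sin α]

/-- The metric `cos² θ b² dα² + dθ² + sin² θ dφ²` in the coordinates `x = (α, θ, φ)`, where the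
function `b` is evaluated at the point of the 3-sphere with these coordinates. -/
def metric (b : EuclideanSpace ℝ (Fin 4) → ℝ) (x : Fin 3 → ℝ) : Matrix (Fin 3) (Fin 3) ℝ :=
  Matrix.diagonal ![(cos (x 1) * b (point (x 0) (x 1) (x 2))) ^ 2, 1, sin (x 1) ^ 2]

/-- The integral of `F` over the 3-sphere with respect to the Riemannian measure
`√(det G) dα dθ dφ`: the integral over `0 < θ < π / 2`, `0 < α < 2 π`, `0 < φ < 2 π`. -/
def total (G : (Fin 3 → ℝ) → Matrix (Fin 3) (Fin 3) ℝ) (F : (Fin 3 → ℝ) → ℝ) : ℝ :=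
  ∫ θ in (0 : ℝ)..(π / 2), ∫ α in (0 : ℝ)..(2 * π), ∫ φ in (0 : ℝ)..(2 * π),
    F ![α, θ, φ] * √(G ![α, θ, φ]).det

end

end Pool.Agent.Lib_helper96.RP
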