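import Pool.Agent.Lib_helper96.RP.Rigid

set_option autoImplicit false

namespace Pool.Agent.Lib_helper96.RP

open Real MeasureTheory intervalIntegral Set Filter Topology
open Pool.Agent.Lib_helper94.QS

noncomputable section

variable {b : E4 → ℝ}

/-- The round metric. -/
def Rd (b : E4 → ℝ) : Prop := ∀ ζ : E4, ‖ζ‖ = 1 → b ζ = 1

theorem lps_round (h : Rd b) : lps b = fun y => cos (y 1) := by
  funext y
  simp [lps, h _ (norm_point _ _ _)]

theorem round_p1 (hb : ContDiff ℝ 2 b) (h : Rd b) :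
    p1 (lps b) 1 = (fun y => -sin (y 1)) ∧ p1 (lps b) 2 = fun _ => 0 := by
  constructor
  · funext y
    have h1 := hasDerivAt_p1 (diff_lps hb) 1 y
    rw [lps_round h] at h1 ⊢
    have h2 : HasDerivAt (fun t => cos (Function.update y 1 t 1)) (-sin (y 1)) (y 1) := by
      simpa using hasDerivAt_cos (y 1)
    exact h1.unique h2
  · funext y
    have h1 := hasDerivAt_p1 (diff_lps hb) 2 y
    rw [lps_round h] at h1 ⊢
    have h2 : HasDerivAt (fun t => cos (Function.update y 2 t 1)) 0 (y 2) := by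
      simpa using hasDerivAt_const (y 2) (cos (y 1))
    exact h1.unique h2

theorem round_p2 (hb : ContDiff ℝ 2 b) (h : Rd b) :
    p2 (lps b) 1 1 = (fun y => -cos (y 1)) ∧ p2 (lps b) 1 2 = (fun _ => 0)
      ∧ p2 (lps b) 2 2 = fun _ => 0 := by
  obtain ⟨e1, e2⟩ := round_p1 hb h
  refine ⟨?_, ?_, ?_⟩
  · funext y
    have h1 := hasDerivAt_p1 (diff_p1 hb 1) 1 y
    have h2 : HasDerivAt (fun t => p1 (lps b) 1 (Function.update y 1 t)) (-cos (y 1)) (y 1) := by
      simpa [e1] using (hasDerivAt_sin (y 1)).fun_neg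
    exact h1.unique h2
  · funext y
    have h1 := hasDerivAt_p1 (diff_p1 hb 1) 2 y
    have h2 : HasDerivAt (fun t => p1 (lps b) 1 (Function.update y 2 t)) 0 (y 2) := by
      simpa [e1] using hasDerivAt_const (y 2) (-sin (y 1))
    exact h1.unique h2
  · funext y
    have h1 := hasDerivAt_p1 (diff_p1 hb 2) 2 y
    have h2 : HasDerivAt (fun t => p1 (lps b) 2 (Function.update y 2 t)) 0 (y 2) := by
      simpa [e2] using hasDerivAt_const (y 2) (0 : ℝ)
    exact h1.unique h2

theorem round_tf (hb : ContDiff ℝ 2 b) (h : Rd b) {θ : ℝ} (hθ : θ ∈ Ioo 0 (π / 2)) (α φ : ℝ) :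
    tf b θ α φ = 0 := by
  obtain ⟨e1, e2⟩ := round_p1 hb h
  obtain ⟨e3, e4, e5⟩ := round_p2 hb h
  have h2 := (sin_pos' hθ).ne'
  have h3 : -cos θ - (0 / sin θ ^ 2 + cos θ / sin θ * -sin θ) = 0 := by
    field_simp
    ring
  rw [tf, e1, e2, e3, e4, e5]
  simp only [Matrix.cons_val_one, Matrix.cons_val_zero]
  rw [h3]
  ring

theorem round_vol (pos : ∀ ζ : E4, ‖ζ‖ = 1 → 0 < b ζ) (h : Rd b) :
    total (metric b) (fun _ => 1) = 2 * π ^ 2 := by
  rw [tot0 pos]
  have e : ∀ θ, DI (vd b θ) = 4 * π ^ 2 * (sin θ * cos θ) := by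
    intro θ
    have : vd b θ = fun _ _ => sin θ * cos θ := by
      funext α φ
      simp [vd, lps_round h]
    rw [this, DI]
    simp
    ring
  simp only [e]
  rw [intervalIntegral.integral_const_mul, integral_sin_mul_cos₁]
  simp
  ring

theorem tot2' (hb : ContDiff ℝ 2 b) (pos : ∀ ζ : E4, ‖ζ‖ = 1 → 0 < b ζ)
    (bind : ∀ ζ : E4, ‖ζ‖ = 1 → ζ 2 = 0 → ζ 3 = 0 → b ζ = 1) :
    (∃ τ : ℝ, 0 ≤ τ ∧ total (metric b) (sigmaTwo (metric b))
      = 2 * π ^ 2 - 1 / 4 * total (metric b) (fun _ => 1) - τ ∧ (τ = 0 → Rd b) ∧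
        (Rd b → τ = 0)) ∨
    (total (metric b) (sigmaTwo (metric b)) = 0 ∧ ¬ Rd b) := by
  have hp : (0 : ℝ) ≤ π / 2 := by positivity
  set K : ℝ → ℝ := fun θ => -1 / 4 * DI (vd b θ) + -1 / 2 * DI (rd b θ) with hK
  set T : ℝ → ℝ := fun θ => DI (tf b θ) with hT
  have hKc : Continuous K :=
    (continuous_const.mul (C3_vd hb).di).add (continuous_const.mul (C3_rd hb).di)
  have e : total (metric b) (sigmaTwo (metric b))
      = ∫ θ in (0 : ℝ)..(π / 2), (K θ - T θ) := by
    rw [total_eq fun θ hθ => sig2 hb pos hθ]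
    rw [intervalIntegral.integral_of_le hp, intervalIntegral.integral_of_le hp,
      integral_Ioc_eq_integral_Ioo, integral_Ioc_eq_integral_Ioo]
    refine setIntegral_congr_fun measurableSet_Ioo fun θ hθ => ?_
    have h1 : Ct fun α φ => -1 / 4 * vd b θ α φ + (-1 / 2 * rd b θ α φ
        + -1 / (2 * sin θ) * p2 (lps b) 2 2 ![α, θ, φ]) :=
      (continuous_const.mul ((C3_vd hb).slice θ)).add
        ((continuous_const.mul ((C3_rd hb).slice θ)).add
          (continuous_const.mul ((C3_p2 hb 2 2).slice θ)))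
    have h2 : Ct fun α φ => -1 * tf b θ α φ := continuous_const.mul (Ct_tf hb pos hθ)
    simp only [DI_add h1 h2, DI_core hb, DI_const_mul, hK, hT]
    ring
  have hT0 : ∀ θ ∈ Ioo 0 (π / 2), 0 ≤ T θ := fun θ hθ => DI_nonneg fun α φ => tf_nonneg pos hθ α φ
  have hround : Rd b → ∀ θ ∈ Ioo 0 (π / 2), T θ = 0 := by
    intro h θ hθ
    have : tf b θ = fun _ _ => 0 := by
      funext α φ
      exact round_tf hb h hθ α φ
    simp [hT, this, DI]
  by_cases hI : IntervalIntegrable T volume 0 (π / 2)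
  · left
    refine ⟨∫ θ in (0 : ℝ)..(π / 2), T θ, ?_, ?_, ?_, ?_⟩
    · rw [intervalIntegral.integral_of_le hp, integral_Ioc_eq_integral_Ioo]
      exact setIntegral_nonneg measurableSet_Ioo hT0
    · rw [e, intervalIntegral.integral_sub (hKc.intervalIntegrable _ _) hI]
      have h1 : ∫ θ in (0 : ℝ)..(π / 2), K θ
          = -1 / 4 * total (metric b) (fun _ => 1) + 2 * π ^ 2 := int_core hb pos bind _
      rw [h1]
      ring
    · intro h0
      exact rigid hb fun θ hθ α hα φ hφ =>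
        box hb bind (fun θ hθ α hα φ hφ => F_zero hb pos hI h0 hθ hα hφ) hθ hα hφ
    · intro h
      rw [intervalIntegral.integral_of_le hp, integral_Ioc_eq_integral_Ioo]
      rw [setIntegral_congr_fun (g := fun _ => (0 : ℝ)) measurableSet_Ioo (hround h)]
      simp
  · right
    constructor
    · rw [e]
      apply intervalIntegral.integral_undef
      intro h
      apply hI
      have := (hKc.intervalIntegrable (μ := volume) 0 (π / 2)).sub h
      simpa using this
    · intro h
      apply hI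
      rw [intervalIntegrable_iff_integrableOn_Ioo_of_le hp]
      exact (integrableOn_zero (μ := volume)).congr_fun (fun θ hθ => (hround h θ hθ).symm)
        measurableSet_Ioo

theorem top (hb : ContDiff ℝ 2 b) (pos : ∀ ζ : E4, ‖ζ‖ = 1 → 0 < b ζ)
    (bind : ∀ ζ : E4, ‖ζ‖ = 1 → ζ 2 = 0 → ζ 3 = 0 → b ζ = 1) :
    (total (metric b) (fun _ => 1) ^ (1 / 3 : ℝ) * total (metric b) (sigmaTwo (metric b))
        ≤ 3 / 4 * (2 * π ^ 2) ^ (4 / 3 : ℝ) ∧
      (total (metric b) (fun _ => 1) ^ (1 / 3 : ℝ) * total (metric b) (sigmaTwo (metric b))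
        = 3 / 4 * (2 * π ^ 2) ^ (4 / 3 : ℝ) ↔ Rd b)) ∧
    (total (metric b) (sigmaOne (metric b)) * total (metric b) (sigmaTwo (metric b))
        ≤ 9 / 2 * π ^ 4 ∧
      (total (metric b) (sigmaOne (metric b)) * total (metric b) (sigmaTwo (metric b))
        = 9 / 2 * π ^ 4 ↔ Rd b)) := by
  have hpi := pi_pos
  have hm := main hb pos bind
  refine ⟨⟨hm.1, ?_⟩, ⟨hm.2, ?_⟩⟩
  all_goals rw [tot1 hb pos bind] at *
  all_goals
    have hV := vol_nonneg pos
    have hr := round_vol pos (b := b)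
    set V := total (metric b) (fun _ => 1) with hVd
    set S := total (metric b) (sigmaTwo (metric b)) with hSd
    rcases tot2' hb pos bind with ⟨τ, hτ, hS, h1, h2⟩ | ⟨hS, h1⟩
  · have hone := (one_var hV (S := 2 * π ^ 2 - 1 / 4 * V) (Or.inl le_rfl)).1
    constructor
    · intro he
      apply h1
      rw [← hVd, ← hSd] at hS
      rw [hS] at he
      have hVp : 0 < V ^ (1 / 3 : ℝ) := by
        rcases hV.lt_or_eq with h | h
        · positivity
        · exfalso
          rw [← h] at he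
          rw [zero_rpow (by norm_num), zero_mul] at he
          have : 0 < 3 / 4 * (2 * π ^ 2) ^ (4 / 3 : ℝ) := by positivity
          linarith
      have : V ^ (1 / 3 : ℝ) * τ ≤ 0 := by nlinarith
      nlinarith
    · intro h
      rw [← hVd, ← hSd] at hS
      rw [hS, h2 h, hr h]
      have e1 : (2 * π ^ 2 : ℝ) ^ (4 / 3 : ℝ) = (2 * π ^ 2) ^ (1 / 3 : ℝ) * (2 * π ^ 2) := by
        rw [show (4 / 3 : ℝ) = 1 / 3 + 1 by norm_num, rpow_add (by positivity), rpow_one]
      rw [e1]
      ring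
  · constructor
    · intro he
      exfalso
      rw [← hSd] at hS
      rw [hS, mul_zero] at he
      have : 0 < 3 / 4 * (2 * π ^ 2) ^ (4 / 3 : ℝ) := by positivity
      linarith
    · intro h
      exact absurd h h1
  · have hone := (one_var hV (S := 2 * π ^ 2 - 1 / 4 * V) (Or.inl le_rfl)).2
    constructor
    · intro he
      apply h1
      rw [← hVd, ← hSd] at hS
      rw [hS] at he
      have h3 : 0 < 1 / 2 * V + 2 * π ^ 2 := by positivity
      have : (1 / 2 * V + 2 * π ^ 2) * τ ≤ 0 := by nlinarith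
      nlinarith
    · intro h
      rw [← hVd, ← hSd] at hS
      rw [hS, h2 h, hr h]
      ring
  · constructor
    · intro he
      exfalso
      rw [← hSd] at hS
      rw [hS, mul_zero] at he
      have : 0 < 9 / 2 * π ^ 4 := by positivity
      linarith
    · intro h
      exact absurd h h1

end

end Pool.Agent.Lib_helper96.RP
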