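import Pool.Agent.Lib_helper96.RP.Core
import Pool.Agent.Lib_helper94.QS.SI

set_option autoImplicit false

namespace Pool.Agent.Lib_helper96.RP

open Real MeasureTheory intervalIntegral Set Filter Topology
open Pool.Agent.Lib_helper94.QS

noncomputable section

variable {b : E4 → ℝ}

theorem upd1 (α θ φ t : ℝ) : Function.update ![α, θ, φ] 1 t = ![α, t, φ] := by
  funext i
  fin_cases i <;> simp [Function.update]

theorem upd2 (α θ φ t : ℝ) : Function.update ![α, θ, φ] 2 t = ![α, θ, t] := by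
  funext i
  fin_cases i <;> simp [Function.update]

theorem der1 {g : (Fin 3 → ℝ) → ℝ} (hg : Differentiable ℝ g) (α θ φ : ℝ) :
    HasDerivAt (fun t => g ![α, t, φ]) (p1 g 1 ![α, θ, φ]) θ := by
  have h := hasDerivAt_p1 hg 1 ![α, θ, φ]
  simp only [upd1] at h
  simpa using h

theorem der2 {g : (Fin 3 → ℝ) → ℝ} (hg : Differentiable ℝ g) (α θ φ : ℝ) :
    HasDerivAt (fun t => g ![α, θ, t]) (p1 g 2 ![α, θ, φ]) φ := by
  have h := hasDerivAt_p1 hg 2 ![α, θ, φ]
  simp only [upd2] at h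
  simpa using h

theorem diff_lps (hb : ContDiff ℝ 2 b) : Differentiable ℝ (lps b) :=
  (contDiff_lps hb).differentiable (by norm_num)

theorem diff_p1 (hb : ContDiff ℝ 2 b) (i : Fin 3) : Differentiable ℝ (p1 (lps b) i) :=
  (contDiff_p1 (contDiff_lps hb) i).differentiable (by norm_num)

/-- The page Laplacian of the lapse, radial part. -/
def rd (b : E4 → ℝ) (θ α φ : ℝ) : ℝ :=
  cos θ * p1 (lps b) 1 ![α, θ, φ] + sin θ * p2 (lps b) 1 1 ![α, θ, φ]

theorem point_binding (α φ : ℝ) : point α (π / 2) φ 2 = 0 ∧ point α (π / 2) φ 3 = 0 := by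
  simp [point]

theorem norm_point (α θ φ : ℝ) : ‖point α θ φ‖ = 1 := by
  rw [EuclideanSpace.norm_eq, Real.sqrt_eq_one]
  simp [point, Fin.sum_univ_four]
  have h1 := sin_sq_add_cos_sq θ
  have h2 := sin_sq_add_cos_sq φ
  have h3 := sin_sq_add_cos_sq α
  nlinarith [h1, h2, h3]

theorem bdry (hb : ContDiff ℝ 2 b) (bind : ∀ ζ : E4, ‖ζ‖ = 1 → ζ 2 = 0 → ζ 3 = 0 → b ζ = 1)
    (α φ : ℝ) : p1 (lps b) 1 ![α, π / 2, φ] = -1 := by
  have h1 := der1 (diff_lps hb) α (π / 2) φ
  have hd : Differentiable ℝ fun t : ℝ => b (point α t φ) := by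
    have e : (fun t : ℝ => b (point α t φ)) = fun t =>
        (fun y : Fin 3 → ℝ => b (point (y 0) (y 1) (y 2))) ![α, t, φ] := by
      funext t; simp
    rw [e]
    have h2 : Differentiable ℝ fun y : Fin 3 → ℝ => b (point (y 0) (y 1) (y 2)) :=
      (hb.comp contDiff_point).differentiable (by norm_num)
    refine h2.comp (g := fun y : Fin 3 → ℝ => b (point (y 0) (y 1) (y 2))) ?_
    rw [differentiable_pi]
    intro i
    fin_cases i <;> simp
  have h2 : HasDerivAt (fun t => lps b ![α, t, φ])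
      (-sin (π / 2) * b (point α (π / 2) φ) + cos (π / 2) * deriv (fun t => b (point α t φ)) (π / 2))
      (π / 2) := by
    have h3 := (hasDerivAt_cos (π / 2)).mul (hd (π / 2)).hasDerivAt
    have e : (fun t => lps b ![α, t, φ]) = (cos * fun t => b (point α t φ)) := by
      funext t; simp [lps]
    rw [e]
    exact h3
  have h4 := h1.unique h2
  rw [h4, bind _ (norm_point _ _ _) (point_binding α φ).1 (point_binding α φ).2]
  simp

theorem int_rd (hb : ContDiff ℝ 2 b) (bind : ∀ ζ : E4, ‖ζ‖ = 1 → ζ 2 = 0 → ζ 3 = 0 → b ζ = 1)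
    (α φ : ℝ) : ∫ θ in (0 : ℝ)..(π / 2), rd b θ α φ = -1 := by
  have key : ∀ θ ∈ uIcc (0 : ℝ) (π / 2),
      HasDerivAt (fun t => sin t * p1 (lps b) 1 ![α, t, φ]) (rd b θ α φ) θ := by
    intro θ _
    have h := (hasDerivAt_sin θ).fun_mul (der1 (diff_p1 hb 1) α θ φ)
    exact h
  have hc : Continuous fun θ => rd b θ α φ := by
    unfold rd
    have h1 : Continuous fun θ : ℝ => ![α, θ, φ] := by
      rw [continuous_pi_iff]
      intro i
      fin_cases i <;> simp <;> fun_prop
    have h2 := ((contDiff_p1 (contDiff_lps hb) 1).continuous).comp h1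
    have h3 := (continuous_p2 (contDiff_lps hb) 1 1).comp h1
    exact (continuous_cos.mul h2).add (continuous_sin.mul h3)
  rw [integral_eq_sub_of_hasDerivAt key (hc.intervalIntegrable _ _), bdry hb bind]
  simp

theorem int_ph (hb : ContDiff ℝ 2 b) (α θ : ℝ) :
    ∫ φ in (0 : ℝ)..(2 * π), p2 (lps b) 2 2 ![α, θ, φ] = 0 := by
  have key : ∀ φ ∈ uIcc (0 : ℝ) (2 * π),
      HasDerivAt (fun t => p1 (lps b) 2 ![α, θ, t]) (p2 (lps b) 2 2 ![α, θ, φ]) φ := by
    intro φ _
    exact der2 (diff_p1 hb 2) α θ φ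
  have hc : Continuous fun φ => p2 (lps b) 2 2 ![α, θ, φ] := by
    have h1 : Continuous fun φ : ℝ => ![α, θ, φ] := by
      rw [continuous_pi_iff]
      intro i
      fin_cases i <;> simp <;> fun_prop
    exact (continuous_p2 (contDiff_lps hb) 2 2).comp h1
  rw [integral_eq_sub_of_hasDerivAt key (hc.intervalIntegrable _ _), sub_eq_zero]
  have hper : ∀ t, lps b ![α, θ, t + 2 * π] = lps b ![α, θ, t] := by
    intro t
    simp [lps, point]
  have h1 := der2 (diff_lps hb) α θ (0 + 2 * π)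
  have h2 : HasDerivAt (fun t => lps b ![α, θ, t]) (p1 (lps b) 2 ![α, θ, 0 + 2 * π]) 0 := by
    have h3 := h1.comp_add_const 0 (2 * π)
    simpa only [hper] using h3
  have h4 := h2.unique (der2 (diff_lps hb) α θ 0)
  simpa using h4

end

end Pool.Agent.Lib_helper96.RP
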