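import Pool.Agent.Lib_helper96.RP.Total

set_option autoImplicit false

namespace Pool.Agent.Lib_helper96.RP

open Real MeasureTheory intervalIntegral Set Filter Topology
open Pool.Agent.Lib_helper94.QS

noncomputable section

variable {b : E4 → ℝ}

theorem DI_zero {g : ℝ → ℝ → ℝ} (hg : Ct g) (H : ∀ α φ, 0 ≤ g α φ) (h0 : DI g = 0) {α φ : ℝ}
    (hα : α ∈ Icc 0 (2 * π)) (hφ : φ ∈ Icc 0 (2 * π)) : g α φ = 0 := by
  have hp : (0 : ℝ) < 2 * π := by positivity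
  by_contra hne
  have h1 : 0 < g α φ := lt_of_le_of_ne (H α φ) (Ne.symm hne)
  have h2 : 0 < ∫ t in (0 : ℝ)..(2 * π), g α t :=
    intervalIntegral.integral_pos hp (hg.right α).continuousOn (fun t _ => H α t) ⟨φ, hφ, h1⟩
  have h3 : 0 < DI g :=
    intervalIntegral.integral_pos hp (hg.inner 0 (2 * π)).continuousOn
      (fun s _ => intervalIntegral.integral_nonneg hp.le fun t _ => H s t) ⟨α, hα, h2⟩
  exact h3.ne' h0

theorem const_right {q : ℝ → ℝ} {x y : ℝ} (hxy : x < y) (hc : ContinuousOn q (Icc x y))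
    (hd : ∀ t ∈ Ioo x y, HasDerivAt q 0 t) : q x = q y := by
  obtain ⟨c, _, h⟩ := exists_hasDerivAt_eq_slope q (fun _ => 0) hxy hc hd
  have h2 : y - x ≠ 0 := sub_ne_zero.mpr hxy.ne'
  have h3 : q y - q x = 0 := by
    field_simp at h
    linarith
  linarith

theorem ode {f f' : ℝ → ℝ} (hf : ∀ t, HasDerivAt f (f' t) t)
    (h : ∀ t ∈ Ioo 0 (π / 2), sin t * f' t = cos t * f t) {θ : ℝ} (hθ : θ ∈ Ioo 0 (π / 2)) :
    f θ = sin θ * f (π / 2) := by
  have hs : ∀ t ∈ Icc θ (π / 2), sin t ≠ 0 := fun t ht =>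
    (sin_pos_of_mem_Ioo ⟨lt_of_lt_of_le hθ.1 ht.1, by linarith [ht.2, pi_pos]⟩).ne'
  have hc : Continuous f := continuous_iff_continuousAt.mpr fun t => (hf t).continuousAt
  have key := const_right (q := fun t => f t / sin t) hθ.2
    (hc.continuousOn.div continuous_sin.continuousOn hs) (fun t ht => by
      have h1 := (hf t).fun_div (hasDerivAt_sin t) (hs t ⟨ht.1.le, ht.2.le⟩)
      have h2 : f' t * sin t - f t * cos t = 0 := by
        have := h t ⟨hθ.1.trans ht.1, ht.2⟩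
        linarith
      rw [h2, zero_div] at h1
      exact h1)
  have h0 := hs θ ⟨le_rfl, hθ.2.le⟩
  simp only [sin_pi_div_two, div_one] at key
  rw [← key]
  field_simp

/-- The off-diagonal part and the difference of the diagonal parts of the page Hessian. -/
def F1 (b : E4 → ℝ) (α φ θ : ℝ) : ℝ :=
  sin θ * p2 (lps b) 1 2 ![α, θ, φ] - cos θ * p1 (lps b) 2 ![α, θ, φ]

def F2 (b : E4 → ℝ) (α φ θ : ℝ) : ℝ :=
  sin θ ^ 2 * p2 (lps b) 1 1 ![α, θ, φ] - p2 (lps b) 2 2 ![α, θ, φ]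
    - sin θ * cos θ * p1 (lps b) 1 ![α, θ, φ]

theorem cont_col (α φ : ℝ) : Continuous fun θ : ℝ => (![α, θ, φ] : Fin 3 → ℝ) := by
  rw [continuous_pi_iff]
  intro i
  fin_cases i <;> simp <;> fun_prop

theorem cont_F1 (hb : ContDiff ℝ 2 b) (α φ : ℝ) : Continuous (F1 b α φ) :=
  (continuous_sin.mul ((continuous_p2 (contDiff_lps hb) 1 2).comp (cont_col α φ))).sub
    (continuous_cos.mul ((contDiff_p1 (contDiff_lps hb) 2).continuous.comp (cont_col α φ)))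

theorem cont_F2 (hb : ContDiff ℝ 2 b) (α φ : ℝ) : Continuous (F2 b α φ) :=
  (((continuous_sin.pow 2).mul ((continuous_p2 (contDiff_lps hb) 1 1).comp (cont_col α φ))).sub
    ((continuous_p2 (contDiff_lps hb) 2 2).comp (cont_col α φ))).sub
    ((continuous_sin.mul continuous_cos).mul
      ((contDiff_p1 (contDiff_lps hb) 1).continuous.comp (cont_col α φ)))

theorem tf_zero (pos : ∀ ζ : E4, ‖ζ‖ = 1 → 0 < b ζ) {θ : ℝ} (hθ : θ ∈ Ioo 0 (π / 2)) {α φ : ℝ}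
    (h : tf b θ α φ = 0) : F1 b α φ θ = 0 ∧ F2 b α φ θ = 0 := by
  have h1 := lps_pos pos hθ α φ
  have h2 := sin_pos' hθ
  unfold tf at h
  have h3 : sin θ / (2 * lps b ![α, θ, φ]) ≠ 0 := by positivity
  have h4 := (mul_eq_zero.mp h).resolve_left h3
  set X := p2 (lps b) 1 1 ![α, θ, φ]
    - (p2 (lps b) 2 2 ![α, θ, φ] / sin θ ^ 2 + cos θ / sin θ * p1 (lps b) 1 ![α, θ, φ]) with hX
  set Y := (p2 (lps b) 1 2 ![α, θ, φ] - cos θ / sin θ * p1 (lps b) 2 ![α, θ, φ]) / sin θ with hY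
  have hX0 : X = 0 := by
    have : X ^ 2 = 0 := by nlinarith [sq_nonneg X, sq_nonneg Y]
    exact pow_eq_zero_iff (two_ne_zero) |>.mp this
  have hY0 : Y = 0 := by
    have : Y ^ 2 = 0 := by nlinarith [sq_nonneg X, sq_nonneg Y]
    exact pow_eq_zero_iff (two_ne_zero) |>.mp this
  constructor
  · have : F1 b α φ θ = sin θ ^ 2 * Y := by
      rw [F1, hY]
      field_simp
    rw [this, hY0, mul_zero]
  · have : F2 b α φ θ = sin θ ^ 2 * X := by
      rw [F2, hX]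
      field_simp
      ring
    rw [this, hX0, mul_zero]

theorem F_zero (hb : ContDiff ℝ 2 b) (pos : ∀ ζ : E4, ‖ζ‖ = 1 → 0 < b ζ)
    (hI : IntervalIntegrable (fun θ => DI (tf b θ)) volume 0 (π / 2))
    (h0 : ∫ θ in (0 : ℝ)..(π / 2), DI (tf b θ) = 0) {θ α φ : ℝ} (hθ : θ ∈ Ioo 0 (π / 2))
    (hα : α ∈ Icc 0 (2 * π)) (hφ : φ ∈ Icc 0 (2 * π)) : F1 b α φ θ = 0 ∧ F2 b α φ θ = 0 := by
  have hp : (0 : ℝ) ≤ π / 2 := by positivity
  rw [intervalIntegral.integral_of_le hp, integral_Ioc_eq_integral_Ioo] at h0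
  have hI' : IntegrableOn (fun θ => DI (tf b θ)) (Ioo 0 (π / 2)) volume :=
    ((intervalIntegrable_iff_integrableOn_Ioc_of_le hp).mp hI).mono_set Ioo_subset_Ioc_self
  have hnn : 0 ≤ᵐ[volume.restrict (Ioo 0 (π / 2))] fun θ => DI (tf b θ) := by
    refine (ae_restrict_iff' measurableSet_Ioo).mpr (ae_of_all _ fun t ht => ?_)
    exact DI_nonneg fun α φ => tf_nonneg pos ht α φ
  have h1 := (setIntegral_eq_zero_iff_of_nonneg_ae hnn hI').mp h0
  have h2 : ∀ᵐ t ∂(volume.restrict (Ioo 0 (π / 2))), F1 b α φ t = 0 ∧ F2 b α φ t = 0 := by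
    filter_upwards [h1, ae_restrict_mem measurableSet_Ioo] with t ht hm
    exact tf_zero pos hm
      (DI_zero (Ct_tf hb pos hm) (fun α φ => tf_nonneg pos hm α φ) ht hα hφ)
  constructor
  · exact Measure.eqOn_open_of_ae_eq (g := fun _ => (0 : ℝ)) (h2.mono fun t ht => ht.1) isOpen_Ioo
      (cont_F1 hb α φ).continuousOn continuousOn_const hθ
  · exact Measure.eqOn_open_of_ae_eq (g := fun _ => (0 : ℝ)) (h2.mono fun t ht => ht.2) isOpen_Ioo
      (cont_F2 hb α φ).continuousOn continuousOn_const hθ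

theorem p1_two_binding (hb : ContDiff ℝ 2 b) (α φ : ℝ) : p1 (lps b) 2 ![α, π / 2, φ] = 0 := by
  have h1 := der2 (diff_lps hb) α (π / 2) φ
  have e : (fun t => lps b ![α, π / 2, t]) = fun _ => 0 := by
    funext t
    simp [lps]
  rw [e] at h1
  exact h1.unique (hasDerivAt_const _ _)

/-- Rigidity in the coordinate box. -/
theorem box (hb : ContDiff ℝ 2 b) (bind : ∀ ζ : E4, ‖ζ‖ = 1 → ζ 2 = 0 → ζ 3 = 0 → b ζ = 1)
    (hF : ∀ θ ∈ Ioo 0 (π / 2), ∀ α ∈ Icc 0 (2 * π), ∀ φ ∈ Icc 0 (2 * π),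
      F1 b α φ θ = 0 ∧ F2 b α φ θ = 0) {θ α φ : ℝ} (hθ : θ ∈ Ioo 0 (π / 2))
    (hα : α ∈ Icc 0 (2 * π)) (hφ : φ ∈ Ioo 0 (2 * π)) : b (point α θ φ) = 1 := by
  -- the derivative in `φ` vanishes
  have h1 : ∀ t ∈ Ioo 0 (π / 2), ∀ s ∈ Icc 0 (2 * π), p1 (lps b) 2 ![α, t, s] = 0 := by
    intro t ht s hs
    have := ode (f := fun u => p1 (lps b) 2 ![α, u, s]) (f' := fun u => p2 (lps b) 2 1 ![α, u, s])
      (fun u => der1 (diff_p1 hb 2) α u s) (fun u hu => by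
        have h := (hF u hu α hα s hs).1
        rw [F1] at h
        rw [p2_sym (contDiff_lps hb) 2 1]
        linarith) ht
    rw [this, p1_two_binding hb, mul_zero]
  have h2 : ∀ t ∈ Ioo 0 (π / 2), p2 (lps b) 2 2 ![α, t, φ] = 0 := by
    intro t ht
    have hd := der2 (diff_p1 hb 2) α t φ
    have he : (fun s => p1 (lps b) 2 ![α, t, s]) =ᶠ[𝓝 φ] fun _ => 0 := by
      filter_upwards [isOpen_Ioo.mem_nhds hφ] with s hs
      exact h1 t ht s ⟨hs.1.le, hs.2.le⟩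
    exact hd.unique ((hasDerivAt_const φ (0 : ℝ)).congr_of_eventuallyEq he)
  have h3 : ∀ t ∈ Ioo 0 (π / 2), p1 (lps b) 1 ![α, t, φ] = -sin t := by
    intro t ht
    have := ode (f := fun u => p1 (lps b) 1 ![α, u, φ]) (f' := fun u => p2 (lps b) 1 1 ![α, u, φ])
      (fun u => der1 (diff_p1 hb 1) α u φ) (fun u hu => by
        have h := (hF u hu α hα φ ⟨hφ.1.le, hφ.2.le⟩).2
        rw [F2, h2 u hu] at h
        have hs := (sin_pos' hu).ne'
        have h' : sin u * (sin u * p2 (lps b) 1 1 ![α, u, φ])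
            = sin u * (cos u * p1 (lps b) 1 ![α, u, φ]) := by linarith
        exact mul_left_cancel₀ hs h') ht
    rw [this, bdry hb bind]
    ring
  have h4 : lps b ![α, θ, φ] - cos θ = lps b ![α, π / 2, φ] - cos (π / 2) := by
    refine const_right (q := fun t => lps b ![α, t, φ] - cos t) hθ.2 ?_ fun t ht => ?_
    · exact (((contDiff_lps hb).continuous.comp (cont_col α φ)).sub continuous_cos).continuousOn
    · have h5 := (der1 (diff_lps hb) α t φ).fun_sub (hasDerivAt_cos t)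
      rw [h3 t ⟨hθ.1.trans ht.1, ht.2⟩] at h5
      simpa using h5
  have h5 : lps b ![α, π / 2, φ] = 0 := by simp [lps]
  rw [h5, cos_pi_div_two, sub_zero] at h4
  have h6 : lps b ![α, θ, φ] = cos θ * b (point α θ φ) := by simp [lps]
  have h7 : cos θ ≠ 0 := (cos_pos_of_mem_Ioo ⟨by linarith [hθ.1, pi_pos], hθ.2⟩).ne'
  rw [h6] at h4
  have h8 : cos θ * b (point α θ φ) = cos θ * 1 := by linarith
  exact mul_left_cancel₀ h7 h8

theorem cont_point : Continuous fun z : ℝ × ℝ × ℝ => point z.2.1 z.1 z.2.2 := by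
  have h := contDiff_point.continuous.comp cont_vec
  simpa [Function.comp_def] using h

theorem polar {x y r : ℝ} (hr : 0 ≤ r) (h : x ^ 2 + y ^ 2 = r ^ 2) :
    ∃ φ ∈ Icc 0 (2 * π), x = r * cos φ ∧ y = r * sin φ := by
  set z : ℂ := ⟨x, y⟩ with hz
  have hn : ‖z‖ = r := by
    have h1 : ‖z‖ ^ 2 = r ^ 2 := by
      rw [← Complex.normSq_eq_norm_sq, Complex.normSq_apply]
      simp only [hz]
      nlinarith [h]
    exact (pow_left_inj₀ (norm_nonneg z) hr two_ne_zero).mp h1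
  have hx : r * cos (Complex.arg z) = x := by
    rw [← hn]; exact Complex.norm_mul_cos_arg z
  have hy : r * sin (Complex.arg z) = y := by
    rw [← hn]; exact Complex.norm_mul_sin_arg z
  have h1 := Complex.neg_pi_lt_arg z
  have h2 := Complex.arg_le_pi z
  by_cases hs : 0 ≤ Complex.arg z
  · exact ⟨Complex.arg z, ⟨hs, by linarith [pi_pos]⟩, hx.symm, hy.symm⟩
  · push_neg at hs
    refine ⟨Complex.arg z + 2 * π, ⟨by linarith, by linarith⟩, ?_, ?_⟩
    · rw [cos_add_two_pi]; exact hx.symm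
    · rw [sin_add_two_pi]; exact hy.symm

theorem exists_coord {ζ : E4} (hζ : ‖ζ‖ = 1) : ∃ θ ∈ Icc 0 (π / 2), ∃ α ∈ Icc 0 (2 * π),
    ∃ φ ∈ Icc 0 (2 * π), ζ = point α θ φ := by
  have h1 : ζ 0 ^ 2 + ζ 1 ^ 2 + (ζ 2 ^ 2 + ζ 3 ^ 2) = 1 := by
    rw [EuclideanSpace.norm_eq, Real.sqrt_eq_one] at hζ
    simp [Fin.sum_univ_four] at hζ
    linarith
  set r := √(ζ 0 ^ 2 + ζ 1 ^ 2) with hr
  have hr0 : 0 ≤ r := sqrt_nonneg _
  have hr2 : r ^ 2 = ζ 0 ^ 2 + ζ 1 ^ 2 := sq_sqrt (by positivity)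
  have hr1 : r ≤ 1 := by nlinarith [sq_nonneg (ζ 2), sq_nonneg (ζ 3)]
  have hs : sin (arcsin r) = r := sin_arcsin (by linarith) hr1
  have hc : cos (arcsin r) ^ 2 = ζ 2 ^ 2 + ζ 3 ^ 2 := by
    have := sin_sq_add_cos_sq (arcsin r)
    rw [hs] at this
    linarith
  have hc0 : 0 ≤ cos (arcsin r) := cos_arcsin_nonneg r
  obtain ⟨φ, hφ, hx, hy⟩ := polar hr0 hr2.symm
  obtain ⟨α, hα, hu, hv⟩ := polar hc0 hc.symm
  refine ⟨arcsin r, ⟨arcsin_nonneg.mpr hr0, arcsin_le_pi_div_two r⟩, α, hα, φ, hφ, ?_⟩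
  ext i
  fin_cases i
  · simpa [point, hs] using hx
  · simpa [point, hs] using hy
  · simpa [point] using hu
  · simpa [point] using hv

theorem rigid (hb : ContDiff ℝ 2 b)
    (H : ∀ θ ∈ Ioo 0 (π / 2), ∀ α ∈ Icc 0 (2 * π), ∀ φ ∈ Ioo 0 (2 * π), b (point α θ φ) = 1) :
    ∀ ζ : E4, ‖ζ‖ = 1 → b ζ = 1 := by
  intro ζ hζ
  obtain ⟨θ, hθ, α, hα, φ, hφ, rfl⟩ := exists_coord hζ
  have hcl : IsClosed {z : ℝ × ℝ | b (point α z.1 z.2) = 1} := by
    have hc : Continuous fun z : ℝ × ℝ => b (point α z.1 z.2) :=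
      hb.continuous.comp (cont_point.comp (f := fun z : ℝ × ℝ => (z.1, α, z.2)) (by fun_prop))
    exact isClosed_eq hc continuous_const
  have hsub : Ioo 0 (π / 2) ×ˢ Ioo 0 (2 * π) ⊆ {z : ℝ × ℝ | b (point α z.1 z.2) = 1} :=
    fun z hz => H z.1 hz.1 α hα z.2 hz.2
  have h2 := closure_minimal hsub hcl
  rw [closure_prod_eq, closure_Ioo (by positivity), closure_Ioo (by positivity)] at h2
  exact h2 (a := (θ, φ)) ⟨hθ, hφ⟩

end

end Pool.Agent.Lib_helper96.RP
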