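import Pool.Agent.Lib_helper96.RP.Page

set_option autoImplicit false

namespace Pool.Agent.Lib_helper96.RP

open Real MeasureTheory intervalIntegral Set Filter Topology
open Pool.Agent.Lib_helper94.QS

noncomputable section

variable {b : E4 → ℝ}

/-- The integral over the torus. -/
def DI (g : ℝ → ℝ → ℝ) : ℝ := ∫ α in (0 : ℝ)..(2 * π), ∫ φ in (0 : ℝ)..(2 * π), g α φ

theorem DI_add {g h : ℝ → ℝ → ℝ} (hg : Ct g) (hh : Ct h) :
    DI (fun α φ => g α φ + h α φ) = DI g + DI h := by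
  unfold DI
  rw [← intervalIntegral.integral_add ((hg.inner _ _).intervalIntegrable _ _)
    ((hh.inner _ _).intervalIntegrable _ _)]
  congr 1
  funext α
  exact intervalIntegral.integral_add ((hg.right α).intervalIntegrable _ _)
    ((hh.right α).intervalIntegrable _ _)

theorem Ct_add {g h : ℝ → ℝ → ℝ} (hg : Ct g) (hh : Ct h) : Ct fun α φ => g α φ + h α φ :=
  Continuous.add hg hh

theorem DI_const_mul (c : ℝ) (g : ℝ → ℝ → ℝ) : DI (fun α φ => c * g α φ) = c * DI g := by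
  unfold DI
  simp only [intervalIntegral.integral_const_mul]

theorem DI_nonneg {g : ℝ → ℝ → ℝ} (H : ∀ α φ, 0 ≤ g α φ) : 0 ≤ DI g := by
  refine integral_nonneg (by positivity) fun α _ => ?_
  exact integral_nonneg (by positivity) fun φ _ => H α φ

/-- Joint continuity in three variables. -/
def C3 (g : ℝ → ℝ → ℝ → ℝ) : Prop := Continuous fun z : ℝ × ℝ × ℝ => g z.1 z.2.1 z.2.2

theorem C3.inner {g : ℝ → ℝ → ℝ → ℝ} (hg : C3 g) :
    Ct fun θ α => ∫ φ in (0 : ℝ)..(2 * π), g θ α φ := by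
  have h1 : Continuous (Function.uncurry fun (z : ℝ × ℝ) (φ : ℝ) => g z.1 z.2 φ) := by
    exact Continuous.comp (f := fun w : (ℝ × ℝ) × ℝ => (w.1.1, w.1.2, w.2)) hg (by fun_prop)
  exact continuous_parametric_intervalIntegral_of_continuous' h1 0 (2 * π)

theorem C3.di {g : ℝ → ℝ → ℝ → ℝ} (hg : C3 g) : Continuous fun θ => DI (g θ) :=
  hg.inner.inner 0 (2 * π)

theorem C3.slice {g : ℝ → ℝ → ℝ → ℝ} (hg : C3 g) (θ : ℝ) : Ct (g θ) :=
  Continuous.comp (f := fun w : ℝ × ℝ => (θ, w.1, w.2)) hg (by fun_prop)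

theorem C3.swap {g : ℝ → ℝ → ℝ → ℝ} (hg : C3 g) (x y : ℝ) :
    ∫ θ in x..y, DI (g θ) = DI fun α φ => ∫ θ in x..y, g θ α φ := by
  unfold DI
  rw [Pool.Agent.Lib_helper94.QS.swap hg.inner]
  congr 1
  funext α
  have h : Ct fun θ φ => g θ α φ :=
    Continuous.comp (f := fun w : ℝ × ℝ => (w.1, α, w.2)) hg (by fun_prop)
  exact Pool.Agent.Lib_helper94.QS.swap h _ _ _ _

theorem cont_vec : Continuous fun z : ℝ × ℝ × ℝ => (![z.2.1, z.1, z.2.2] : Fin 3 → ℝ) := by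
  rw [continuous_pi_iff]
  intro i
  fin_cases i <;> simp <;> fun_prop

theorem C3_lps (hb : ContDiff ℝ 2 b) : C3 fun θ α φ => lps b ![α, θ, φ] :=
  (contDiff_lps hb).continuous.comp cont_vec

theorem C3_p1 (hb : ContDiff ℝ 2 b) (i : Fin 3) : C3 fun θ α φ => p1 (lps b) i ![α, θ, φ] :=
  (contDiff_p1 (contDiff_lps hb) i).continuous.comp cont_vec

theorem C3_p2 (hb : ContDiff ℝ 2 b) (i m : Fin 3) :
    C3 fun θ α φ => p2 (lps b) i m ![α, θ, φ] :=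
  (continuous_p2 (contDiff_lps hb) i m).comp cont_vec

theorem C3_rd (hb : ContDiff ℝ 2 b) : C3 (rd b) := by
  unfold rd
  exact ((continuous_cos.comp continuous_fst).mul (C3_p1 hb 1)).add
    ((continuous_sin.comp continuous_fst).mul (C3_p2 hb 1 1))

/-- The volume density. -/
def vd (b : E4 → ℝ) (θ α φ : ℝ) : ℝ := sin θ * lps b ![α, θ, φ]

theorem C3_vd (hb : ContDiff ℝ 2 b) : C3 (vd b) :=
  (continuous_sin.comp continuous_fst).mul (C3_lps hb)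

/-- The tracefree part of the page Hessian. -/
def tf (b : E4 → ℝ) (θ α φ : ℝ) : ℝ :=
  sin θ / (2 * lps b ![α, θ, φ]) * (1 / 2 * (p2 (lps b) 1 1 ![α, θ, φ]
    - (p2 (lps b) 2 2 ![α, θ, φ] / sin θ ^ 2 + cos θ / sin θ * p1 (lps b) 1 ![α, θ, φ])) ^ 2
    + 2 * ((p2 (lps b) 1 2 ![α, θ, φ] - cos θ / sin θ * p1 (lps b) 2 ![α, θ, φ]) / sin θ) ^ 2)

theorem lps_pos (pos : ∀ ζ : E4, ‖ζ‖ = 1 → 0 < b ζ) {θ : ℝ} (hθ : θ ∈ Ioo 0 (π / 2)) (α φ : ℝ) :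
    0 < lps b ![α, θ, φ] := by
  have h1 : 0 < cos θ := cos_pos_of_mem_Ioo ⟨by linarith [hθ.1, pi_pos], hθ.2⟩
  have h2 := pos (point α θ φ) (norm_point α θ φ)
  simpa [lps] using mul_pos h1 h2

theorem sin_pos' {θ : ℝ} (hθ : θ ∈ Ioo 0 (π / 2)) : 0 < sin θ :=
  sin_pos_of_mem_Ioo ⟨hθ.1, by linarith [hθ.2, pi_pos]⟩

theorem good (pos : ∀ ζ : E4, ‖ζ‖ = 1 → 0 < b ζ) {θ : ℝ} (hθ : θ ∈ Ioo 0 (π / 2)) (α φ : ℝ) :
    Good (lps b) (fun _ => 1) ![α, θ, φ] :=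
  ⟨lps_pos pos hθ α φ, one_pos, by simpa using sin_pos' hθ⟩

theorem tf_nonneg (pos : ∀ ζ : E4, ‖ζ‖ = 1 → 0 < b ζ) {θ : ℝ} (hθ : θ ∈ Ioo 0 (π / 2))
    (α φ : ℝ) : 0 ≤ tf b θ α φ := by
  have h1 := lps_pos pos hθ α φ
  have h2 := sin_pos' hθ
  unfold tf
  positivity

theorem det_eq (pos : ∀ ζ : E4, ‖ζ‖ = 1 → 0 < b ζ) {θ : ℝ} (hθ : θ ∈ Ioo 0 (π / 2)) (α φ : ℝ) :
    √(metric b ![α, θ, φ]).det = vd b θ α φ := by
  rw [metric_eq, sqrt_det (good pos hθ α φ)]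
  simp [vd]
  ring

theorem sig1 (hb : ContDiff ℝ 2 b) (pos : ∀ ζ : E4, ‖ζ‖ = 1 → 0 < b ζ) {θ : ℝ}
    (hθ : θ ∈ Ioo 0 (π / 2)) (α φ : ℝ) :
    sigmaOne (metric b) ![α, θ, φ] * √(metric b ![α, θ, φ]).det
      = 1 / 2 * vd b θ α φ + (-1 / 2 * rd b θ α φ
        + -1 / (2 * sin θ) * p2 (lps b) 2 2 ![α, θ, φ]) := by
  have h1 := (lps_pos pos hθ α φ).ne'
  have h2 := (sin_pos' hθ).ne'
  rw [det_eq pos hθ, metric_eq, sigmaOne, scalar_eq (dat hb) (good pos hθ α φ)]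
  simp [kap, rho, lap, vd, rd]
  field_simp
  ring

theorem sig2 (hb : ContDiff ℝ 2 b) (pos : ∀ ζ : E4, ‖ζ‖ = 1 → 0 < b ζ) {θ : ℝ}
    (hθ : θ ∈ Ioo 0 (π / 2)) (α φ : ℝ) :
    sigmaTwo (metric b) ![α, θ, φ] * √(metric b ![α, θ, φ]).det
      = (-1 / 4 * vd b θ α φ + (-1 / 2 * rd b θ α φ
        + -1 / (2 * sin θ) * p2 (lps b) 2 2 ![α, θ, φ])) + -1 * tf b θ α φ := by
  have h1 := (lps_pos pos hθ α φ).ne'
  have h2 := (sin_pos' hθ).ne'
  rw [det_eq pos hθ, metric_eq, sigmaTwo_eq (dat hb) (good pos hθ α φ)]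
  simp [kap, rho, lap, vd, rd, tf]
  field_simp
  ring

theorem total_eq {F : (Fin 3 → ℝ) → ℝ} {W : ℝ → ℝ → ℝ → ℝ}
    (H : ∀ θ ∈ Ioo 0 (π / 2), ∀ α φ, F ![α, θ, φ] * √(metric b ![α, θ, φ]).det = W θ α φ) :
    total (metric b) F = ∫ θ in (0 : ℝ)..(π / 2), DI (W θ) := by
  unfold total DI
  have hp : (0 : ℝ) ≤ π / 2 := by positivity
  rw [intervalIntegral.integral_of_le hp, intervalIntegral.integral_of_le hp,
    integral_Ioc_eq_integral_Ioo, integral_Ioc_eq_integral_Ioo]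
  refine setIntegral_congr_fun measurableSet_Ioo fun θ hθ => ?_
  simp only [H θ hθ]

theorem Ct_tf (hb : ContDiff ℝ 2 b) (pos : ∀ ζ : E4, ‖ζ‖ = 1 → 0 < b ζ) {θ : ℝ}
    (hθ : θ ∈ Ioo 0 (π / 2)) : Ct (tf b θ) := by
  have h1 : Continuous fun z : ℝ × ℝ => lps b ![z.1, θ, z.2] := (C3_lps hb).slice θ
  have h2 : Continuous fun z : ℝ × ℝ => p2 (lps b) 1 1 ![z.1, θ, z.2] := (C3_p2 hb 1 1).slice θ
  have h3 : Continuous fun z : ℝ × ℝ => p2 (lps b) 2 2 ![z.1, θ, z.2] := (C3_p2 hb 2 2).slice θ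
  have h4 : Continuous fun z : ℝ × ℝ => p2 (lps b) 1 2 ![z.1, θ, z.2] := (C3_p2 hb 1 2).slice θ
  have h5 : Continuous fun z : ℝ × ℝ => p1 (lps b) 1 ![z.1, θ, z.2] := (C3_p1 hb 1).slice θ
  have h6 : Continuous fun z : ℝ × ℝ => p1 (lps b) 2 ![z.1, θ, z.2] := (C3_p1 hb 2).slice θ
  have h0 : ∀ z : ℝ × ℝ, 2 * lps b ![z.1, θ, z.2] ≠ 0 := fun z =>
    mul_ne_zero two_ne_zero (lps_pos pos hθ z.1 z.2).ne'
  unfold Ct tf
  exact ((continuous_const.div (continuous_const.mul h1) h0)).mul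
    ((continuous_const.mul ((h2.sub ((h3.div_const _).add (continuous_const.mul h5))).pow 2)).add
      (continuous_const.mul (((h4.sub (continuous_const.mul h6)).div_const _).pow 2)))

theorem DI_ph (hb : ContDiff ℝ 2 b) (θ : ℝ) :
    DI (fun α φ => p2 (lps b) 2 2 ![α, θ, φ]) = 0 := by
  unfold DI
  simp [int_ph hb]

theorem int_DI_rd (hb : ContDiff ℝ 2 b)
    (bind : ∀ ζ : E4, ‖ζ‖ = 1 → ζ 2 = 0 → ζ 3 = 0 → b ζ = 1) :
    ∫ θ in (0 : ℝ)..(π / 2), DI (rd b θ) = -(4 * π ^ 2) := by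
  rw [(C3_rd hb).swap]
  simp [int_rd hb bind, DI]
  ring

/-- The total volume. -/
theorem tot0 (pos : ∀ ζ : E4, ‖ζ‖ = 1 → 0 < b ζ) :
    total (metric b) (fun _ => 1) = ∫ θ in (0 : ℝ)..(π / 2), DI (vd b θ) :=
  total_eq fun θ hθ α φ => by rw [det_eq pos hθ, one_mul]

theorem DI_core (hb : ContDiff ℝ 2 b) (c θ : ℝ) :
    DI (fun α φ => c * vd b θ α φ + (-1 / 2 * rd b θ α φ
        + -1 / (2 * sin θ) * p2 (lps b) 2 2 ![α, θ, φ]))
      = c * DI (vd b θ) + -1 / 2 * DI (rd b θ) := by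
  have h1 : Ct fun α φ => c * vd b θ α φ := continuous_const.mul ((C3_vd hb).slice θ)
  have h2 : Ct fun α φ => -1 / 2 * rd b θ α φ := continuous_const.mul ((C3_rd hb).slice θ)
  have h3 : Ct fun α φ => -1 / (2 * sin θ) * p2 (lps b) 2 2 ![α, θ, φ] :=
    continuous_const.mul ((C3_p2 hb 2 2).slice θ)
  rw [DI_add h1 (Ct_add h2 h3), DI_add h2 h3, DI_const_mul, DI_const_mul, DI_const_mul, DI_ph hb]
  ring

theorem int_core (hb : ContDiff ℝ 2 b) (pos : ∀ ζ : E4, ‖ζ‖ = 1 → 0 < b ζ)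
    (bind : ∀ ζ : E4, ‖ζ‖ = 1 → ζ 2 = 0 → ζ 3 = 0 → b ζ = 1) (c : ℝ) :
    ∫ θ in (0 : ℝ)..(π / 2), (c * DI (vd b θ) + -1 / 2 * DI (rd b θ))
      = c * total (metric b) (fun _ => 1) + 2 * π ^ 2 := by
  have h1 : Continuous fun θ => c * DI (vd b θ) := continuous_const.mul (C3_vd hb).di
  have h2 : Continuous fun θ => -1 / 2 * DI (rd b θ) := continuous_const.mul (C3_rd hb).di
  rw [tot0 pos, intervalIntegral.integral_add (h1.intervalIntegrable _ _)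
    (h2.intervalIntegrable _ _), intervalIntegral.integral_const_mul,
    intervalIntegral.integral_const_mul, int_DI_rd hb bind]
  ring

theorem tot1 (hb : ContDiff ℝ 2 b) (pos : ∀ ζ : E4, ‖ζ‖ = 1 → 0 < b ζ)
    (bind : ∀ ζ : E4, ‖ζ‖ = 1 → ζ 2 = 0 → ζ 3 = 0 → b ζ = 1) :
    total (metric b) (sigmaOne (metric b))
      = 1 / 2 * total (metric b) (fun _ => 1) + 2 * π ^ 2 := by
  rw [total_eq fun θ hθ => sig1 hb pos hθ]
  simp only [DI_core hb]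
  exact int_core hb pos bind _

theorem tot2 (hb : ContDiff ℝ 2 b) (pos : ∀ ζ : E4, ‖ζ‖ = 1 → 0 < b ζ)
    (bind : ∀ ζ : E4, ‖ζ‖ = 1 → ζ 2 = 0 → ζ 3 = 0 → b ζ = 1) :
    total (metric b) (sigmaTwo (metric b))
      ≤ 2 * π ^ 2 - 1 / 4 * total (metric b) (fun _ => 1) ∨
    total (metric b) (sigmaTwo (metric b)) = 0 := by
  have hp : (0 : ℝ) ≤ π / 2 := by positivity
  set K : ℝ → ℝ := fun θ => -1 / 4 * DI (vd b θ) + -1 / 2 * DI (rd b θ) with hK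
  set T : ℝ → ℝ := fun θ => DI (tf b θ) with hT
  have hKc : Continuous K :=
    (continuous_const.mul (C3_vd hb).di).add (continuous_const.mul (C3_rd hb).di)
  have e : total (metric b) (sigmaTwo (metric b))
      = ∫ θ in (0 : ℝ)..(π / 2), (K θ - T θ) := by
    rw [total_eq fun θ hθ => sig2 hb pos hθ]
    rw [intervalIntegral.integral_of_le hp, intervalIntegral.integral_of_le hp,
      integral_Ioc_eq_integral_Ioo, integral_Ioc_eq_integral_Ioo]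
    refine setIntegral_congr_fun measurableSet_Ioo fun θ hθ => ?_
    have h1 : Ct fun α φ => -1 / 4 * vd b θ α φ + (-1 / 2 * rd b θ α φ
        + -1 / (2 * sin θ) * p2 (lps b) 2 2 ![α, θ, φ]) :=
      (continuous_const.mul ((C3_vd hb).slice θ)).add
        ((continuous_const.mul ((C3_rd hb).slice θ)).add
          (continuous_const.mul ((C3_p2 hb 2 2).slice θ)))
    have h2 : Ct fun α φ => -1 * tf b θ α φ := continuous_const.mul (Ct_tf hb pos hθ)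
    simp only [DI_add h1 h2, DI_core hb, DI_const_mul, hK, hT]
    ring
  have hT0 : ∀ θ ∈ Ioo 0 (π / 2), 0 ≤ T θ := fun θ hθ => DI_nonneg fun α φ => tf_nonneg pos hθ α φ
  by_cases hI : IntervalIntegrable T volume 0 (π / 2)
  · left
    rw [e, intervalIntegral.integral_sub (hKc.intervalIntegrable _ _) hI]
    have h1 : ∫ θ in (0 : ℝ)..(π / 2), K θ
        = -1 / 4 * total (metric b) (fun _ => 1) + 2 * π ^ 2 := int_core hb pos bind _
    have h2 : 0 ≤ ∫ θ in (0 : ℝ)..(π / 2), T θ := by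
      rw [intervalIntegral.integral_of_le hp, integral_Ioc_eq_integral_Ioo]
      exact setIntegral_nonneg measurableSet_Ioo hT0
    linarith
  · right
    rw [e]
    apply intervalIntegral.integral_undef
    intro h
    apply hI
    have := (hKc.intervalIntegrable (μ := volume) 0 (π / 2)).sub h
    simpa using this

theorem vol_nonneg (pos : ∀ ζ : E4, ‖ζ‖ = 1 → 0 < b ζ) :
    0 ≤ total (metric b) (fun _ => 1) := by
  have hp : (0 : ℝ) ≤ π / 2 := by positivity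
  rw [tot0 pos, intervalIntegral.integral_of_le hp, integral_Ioc_eq_integral_Ioo]
  refine setIntegral_nonneg measurableSet_Ioo fun θ hθ => DI_nonneg fun α φ => ?_
  exact (mul_pos (sin_pos' hθ) (lps_pos pos hθ α φ)).le

theorem one_var {V S : ℝ} (hV : 0 ≤ V) (hS : S ≤ 2 * π ^ 2 - 1 / 4 * V ∨ S = 0) :
    V ^ (1 / 3 : ℝ) * S ≤ 3 / 4 * (2 * π ^ 2) ^ (4 / 3 : ℝ) ∧
    (1 / 2 * V + 2 * π ^ 2) * S ≤ 9 / 2 * π ^ 4 := by
  have hpi := pi_pos
  rcases hS with hS | hS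
  · constructor
    · obtain ⟨s, hs⟩ : ∃ s, s = V ^ (1 / 3 : ℝ) := ⟨_, rfl⟩
      obtain ⟨c, hc⟩ : ∃ c, c = (2 * π ^ 2) ^ (1 / 3 : ℝ) := ⟨_, rfl⟩
      have hs0 : 0 ≤ s := by rw [hs]; positivity
      have hc0 : 0 < c := by rw [hc]; positivity
      have hs3 : s ^ 3 = V := by
        rw [hs, ← rpow_natCast (V ^ (1 / 3 : ℝ)) 3, ← rpow_mul hV]
        norm_num
      have hc3 : c ^ 3 = 2 * π ^ 2 := by
        rw [hc, ← rpow_natCast ((2 * π ^ 2) ^ (1 / 3 : ℝ)) 3, ← rpow_mul (by positivity)]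
        norm_num
      have hc4 : (2 * π ^ 2) ^ (4 / 3 : ℝ) = c ^ 4 := by
        rw [hc, ← rpow_natCast ((2 * π ^ 2) ^ (1 / 3 : ℝ)) 4, ← rpow_mul (by positivity)]
        norm_num
      rw [← hs, hc4]
      have h1 : s * S ≤ s * (c ^ 3 - 1 / 4 * s ^ 3) := by
        refine mul_le_mul_of_nonneg_left ?_ hs0
        rw [hc3, hs3]
        exact hS
      have h2 : 0 ≤ (s - c) ^ 2 * (s ^ 2 + 2 * s * c + 3 * c ^ 2) := by positivity
      nlinarith [h1, h2]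
    · have h1 : (1 / 2 * V + 2 * π ^ 2) * S
          ≤ (1 / 2 * V + 2 * π ^ 2) * (2 * π ^ 2 - 1 / 4 * V) :=
        mul_le_mul_of_nonneg_left hS (by positivity)
      nlinarith [h1, sq_nonneg (V - 2 * π ^ 2)]
  · rw [hS, mul_zero, mul_zero]
    constructor <;> positivity

theorem main (hb : ContDiff ℝ 2 b) (pos : ∀ ζ : E4, ‖ζ‖ = 1 → 0 < b ζ)
    (bind : ∀ ζ : E4, ‖ζ‖ = 1 → ζ 2 = 0 → ζ 3 = 0 → b ζ = 1) :
    total (metric b) (fun _ => 1) ^ (1 / 3 : ℝ) * total (metric b) (sigmaTwo (metric b))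
      ≤ 3 / 4 * (2 * π ^ 2) ^ (4 / 3 : ℝ) ∧
    total (metric b) (sigmaOne (metric b)) * total (metric b) (sigmaTwo (metric b))
      ≤ 9 / 2 * π ^ 4 := by
  rw [tot1 hb pos bind]
  exact one_var (vol_nonneg pos) (tot2 hb pos bind)

end

end Pool.Agent.Lib_helper96.RP
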